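import Mathlib
import Pool.Agent.H458.Sp.LW

set_option autoImplicit false

/-!
# The Lang-Waldschmidt inequality for products of powers of sparse integers

Let `a_1, ..., a_k` be nonzero integers which are combinations of the same `r` powers of some
integer `b ≥ 2` with integral coefficients of absolute value at most `B`, and let `b_1, ..., b_k` be
integers with `∑ |b_i| ≤ D`.  If `Λ = ∏ a_i ^ b_i ≠ 1`, then `|Λ - 1| ≥ 1 / (K |a_1 ⋯ a_k|)` with an
explicit `K` which depends only on `r`, `B`, `D`, `k`.  This is the conjectured dependence on the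
`a_i`, even with `ε = 0`; neither `b` nor the exponents of `b` enter.

Method: Dirichlet's box principle gives a transfer principle from polynomials in one variable to
sparse integers, by which sizes of polynomial expressions become degrees; for polynomials the
inequality is `deg ∏ p_i ^ l_i ≤ deg (∏ p_i ^ k_i - ∏ p_i ^ l_i) + ∑ deg p_i`.
-/

namespace Pool.Agent.Results.MP_4eb8d9_nt.SparseProducts

open Pool.Agent.H458.Sp MvPolynomial

/-- the sparse integer with coefficients `c` and exponents `e` in base `b` -/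
def sp {r : ℕ} (b : ℕ) (e : Fin r → ℕ) (c : Fin r → ℤ) : ℤ := ∑ j, c j * (b : ℤ) ^ (e j)

/-- the constant -/
def const (r B D k : ℕ) : ℕ :=
  (r * B * (4 * (r * B) ^ D) ^ (4 * D * (4 * D) ^ r)) ^ D * (4 * (r * B) ^ D) ^ (2 * (k + 1))

theorem prod_form {r k : ℕ} (c : Fin k → Fin r → ℤ) (B : ℕ) (hc : ∀ i j, |c i j| ≤ B)
    (hrB : 1 ≤ r * B) (D : ℕ) (κ : Fin k → ℕ) (hκ : ∑ i, κ i ≤ D) :
    nz (∏ i, li (c i) ^ κ i) ≤ (r * B : ℤ) ^ D ∧ (∏ i, li (c i) ^ κ i).totalDegree ≤ D := by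
  classical
  constructor
  · refine (nz_prod Finset.univ _ (fun i => ((r : ℤ) * B) ^ κ i)
      fun i _ => nz_pow _ _ (li_nz (c i) B (hc i)) _).trans ?_
    rw [Finset.prod_pow_eq_pow_sum]
    exact pow_le_pow_right₀ (by exact_mod_cast hrB) hκ
  · refine (totalDegree_finsetProd _ _).trans (le_trans ?_ hκ)
    refine Finset.sum_le_sum fun i _ => ?_
    refine (totalDegree_pow _ _).trans ?_
    have h1 : (li (c i)).totalDegree ≤ 1 := (li_homog (c i)).totalDegree_le
    nlinarith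

theorem result {r k : ℕ} (b : ℕ) (hb : 2 ≤ b) (B D : ℕ) (hD : 1 ≤ D) (e : Fin r → ℕ)
    (c : Fin k → Fin r → ℤ) (hc : ∀ i j, |c i j| ≤ B) (ha : ∀ i, sp b e (c i) ≠ 0)
    (β : Fin k → ℤ) (hβ : ∑ i, (β i).natAbs ≤ D)
    (hΛ : ∏ i, (sp b e (c i) : ℚ) ^ (β i) ≠ 1) :
    1 / ((const r B D k : ℚ) * ∏ i, |(sp b e (c i) : ℚ)|) ≤
      |∏ i, (sp b e (c i) : ℚ) ^ (β i) - 1| := by
  classical
  -- there is at least one factor
  have hk : ∃ _i : Fin k, True := by
    by_contra hcon
    push Not at hcon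
    apply hΛ
    rw [Finset.prod_eq_one]
    intro i _
    exact absurd (hcon i) id
  obtain ⟨i0, _⟩ := hk
  have hrB : 1 ≤ r * B := by
    by_contra hcon
    apply ha i0
    unfold sp
    rcases Nat.mul_eq_zero.1 (show r * B = 0 by omega) with h | h
    · subst h
      simp
    · have h4 : ∀ j, c i0 j = 0 := fun j => by
        have := hc i0 j
        rw [h] at this
        exact abs_eq_zero.1 (le_antisymm (by simpa using this) (abs_nonneg _))
      simp [h4]
  have hrB1 : 1 ≤ (r * B) ^ D := Nat.one_le_pow _ _ hrB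
  set κ : Fin k → ℕ := fun i => (β i).toNat with hκ
  set l : Fin k → ℕ := fun i => (-β i).toNat with hl
  have hκs : ∑ i, κ i ≤ D := (Finset.sum_le_sum fun i _ => by
    simp only [hκ]; omega).trans hβ
  have hls : ∑ i, l i ≤ D := (Finset.sum_le_sum fun i _ => by
    simp only [hl]; omega).trans hβ
  have hκl : ∀ i, κ i = 0 ∨ l i = 0 := by
    intro i
    simp only [hκ, hl]
    omega
  set a : Fin k → ℤ := fun i => sp b e (c i) with ha'
  have haQ : ∀ i, ((a i : ℤ) : ℚ) ≠ 0 := fun i => by exact_mod_cast ha i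
  set PZ : ℤ := ∏ i, a i ^ κ i with hPZ
  set QZ : ℤ := ∏ i, a i ^ l i with hQZ
  have hQZ0 : QZ ≠ 0 := Finset.prod_ne_zero_iff.2 fun i _ => pow_ne_zero _ (ha i)
  have hQZQ : (QZ : ℚ) ≠ 0 := by exact_mod_cast hQZ0
  have hΛeq : ∏ i, (a i : ℚ) ^ (β i) = (PZ : ℚ) / QZ := by
    rw [hPZ, hQZ]
    push_cast
    rw [← Finset.prod_div_distrib]
    refine Finset.prod_congr rfl fun i _ => ?_
    rw [← zpow_natCast, ← zpow_natCast, ← zpow_sub₀ (haQ i)]
    congr 1
    simp only [hκ, hl]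
    omega
  have hR0 : PZ - QZ ≠ 0 := by
    intro h
    apply hΛ
    show ∏ i, (a i : ℚ) ^ (β i) = 1
    rw [hΛeq, sub_eq_zero.1 h, div_self hQZQ]
  -- the transfer
  set S := 4 * (r * B) ^ D with hS
  obtain ⟨m, l1, hml, htr⟩ := transfer_all b hb D hD S (by omega) e
  have hev : ∀ i, eval (fun j => (b : ℤ) ^ (e j)) (li (c i)) = a i := by
    intro i
    rw [eval_li]
    exact Finset.sum_congr rfl fun j _ => mul_comm _ _
  set p : Fin k → Polynomial ℤ := fun i => sub (b : ℤ) m l1 (li (c i)) with hp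
  have hpe : ∀ i, (p i).eval (b : ℤ) = a i := by
    intro i
    rw [hp]
    simp only
    rw [sub_eval]
    simp only [hml]
    exact hev i
  have hp0 : ∀ i, p i ≠ 0 := by
    intro i h
    apply ha i
    show a i = 0
    rw [← hpe i, h, Polynomial.eval_zero]
  set G := ∏ i, li (c i) ^ κ i - ∏ i, li (c i) ^ l i with hG
  obtain ⟨n1, d1⟩ := prod_form c B hc hrB D κ hκs
  obtain ⟨n2, d2⟩ := prod_form c B hc hrB D l hls
  have hGnz : 2 * nz G ≤ (S : ℤ) := by
    have h3 : nz G ≤ nz (∏ i, li (c i) ^ κ i) + nz (∏ i, li (c i) ^ l i) := by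
      rw [hG, sub_eq_add_neg]
      refine (nz_add _ _).trans ?_
      rw [nz_neg]
    rw [hS]
    push_cast
    linarith
  have hGd : ∀ α ∈ G.support, ∑ j, α j ≤ D := by
    intro α hα
    refine (sum_le_totalDegree G α hα).trans ?_
    exact (totalDegree_sub _ _).trans (max_le d1 d2)
  have hGev : eval (fun j => (b : ℤ) ^ (e j)) G = PZ - QZ := by
    rw [hG, map_sub, map_prod, map_prod]
    simp only [map_pow, hev]
    rfl
  have hGsub : sub (b : ℤ) m l1 G = ∏ i, p i ^ κ i - ∏ i, p i ^ l i := by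
    rw [hG, map_sub, map_prod, map_prod]
    simp only [map_pow]
    rfl
  have hGsub0 : ∏ i, p i ^ κ i - ∏ i, p i ^ l i ≠ 0 := by
    intro h
    rw [← hGsub] at h
    apply hR0
    rw [← hGev]
    have h2 := sub_eval (b : ℤ) m l1 G
    rw [h, Polynomial.eval_zero] at h2
    simp only [hml] at h2
    exact h2.symm
  have hdav := dav_prod p hp0 κ l hκl hGsub0
  have hbig := (htr G hGd hGnz).2 (by rw [hGev]; exact hR0)
  rw [hGev, hGsub] at hbig
  -- the linear forms
  have hlin : ∀ i, |a i| ≤ (r * B : ℤ) * (S : ℤ) ^ (4 * D * (4 * D) ^ r) *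
      (b : ℤ) ^ (p i).natDegree ∧ (b : ℤ) ^ (p i).natDegree ≤ (S : ℤ) ^ 2 * |a i| := by
    intro i
    have hdeg : ∀ α ∈ (li (c i)).support, ∑ j, α j ≤ D := by
      intro α hα
      refine (sum_le_totalDegree _ α hα).trans ?_
      exact (li_homog (c i)).totalDegree_le.trans hD
    have hnz : 2 * nz (li (c i)) ≤ (S : ℤ) := by
      have h1 := li_nz (c i) B (hc i)
      have h2 : r * B ≤ (r * B) ^ D := Nat.le_self_pow (by omega) _
      have h3 : ((r * B : ℕ) : ℤ) ≤ (((r * B) ^ D : ℕ) : ℤ) := by exact_mod_cast h2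
      rw [hS]
      push_cast at h3 ⊢
      have h4 : (0 : ℤ) ≤ (r : ℤ) * B := by positivity
      linarith
    obtain ⟨h1, h2⟩ := htr (li (c i)) hdeg hnz
    rw [hev] at h1 h2
    refine ⟨h1.trans ?_, h2 (ha i)⟩
    refine mul_le_mul_of_nonneg_right (mul_le_mul_of_nonneg_right (li_nz (c i) B (hc i))
      (by positivity)) (by positivity)
  have hbZ : (1 : ℤ) ≤ b := by
    have : 1 ≤ b := by omega
    exact_mod_cast this
  set T : ℤ := (r * B : ℤ) * (S : ℤ) ^ (4 * D * (4 * D) ^ r) with hT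
  have hT1 : 1 ≤ T := by
    have h1 : 1 ≤ r * B * S ^ (4 * D * (4 * D) ^ r) :=
      Nat.mul_pos hrB (Nat.pow_pos (by omega))
    rw [hT]
    exact_mod_cast h1
  have hQle : |QZ| ≤ T ^ D * (b : ℤ) ^ (∏ i, p i ^ l i).natDegree := by
    have h1 : (∏ i, p i ^ l i).natDegree = ∑ i, l i * (p i).natDegree := by
      rw [Polynomial.natDegree_prod _ _ (fun i _ => pow_ne_zero _ (hp0 i))]
      exact Finset.sum_congr rfl fun i _ => Polynomial.natDegree_pow _ _
    rw [h1, hQZ, Finset.abs_prod, ← Finset.prod_pow_eq_pow_sum]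
    calc ∏ i, |a i ^ l i| ≤ ∏ i, (T ^ l i * (b : ℤ) ^ (l i * (p i).natDegree)) := by
          refine Finset.prod_le_prod (fun i _ => abs_nonneg _) fun i _ => ?_
          rw [abs_pow, mul_comm (l i), pow_mul, ← mul_pow]
          exact pow_le_pow_left₀ (abs_nonneg _) (hlin i).1 _
      _ = T ^ (∑ i, l i) * ∏ i, (b : ℤ) ^ (l i * (p i).natDegree) := by
          rw [Finset.prod_mul_distrib, Finset.prod_pow_eq_pow_sum]
      _ ≤ T ^ D * ∏ i, (b : ℤ) ^ (l i * (p i).natDegree) := by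
          refine mul_le_mul_of_nonneg_right (pow_le_pow_right₀ hT1 hls) ?_
          exact Finset.prod_nonneg fun i _ => by positivity
  have hcst : (const r B D k : ℤ) = T ^ D * (S : ℤ) ^ (2 * (k + 1)) := by
    unfold const
    rw [hT, hS]
    push_cast
    rfl
  have hmain : |QZ| ≤ (const r B D k : ℤ) * (|PZ - QZ| * ∏ i, |a i|) := by
    calc |QZ| ≤ T ^ D * (b : ℤ) ^ (∏ i, p i ^ l i).natDegree := hQle
      _ ≤ T ^ D * (b : ℤ) ^ ((∏ i, p i ^ κ i - ∏ i, p i ^ l i).natDegree +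
            ∑ i, (p i).natDegree) :=
          mul_le_mul_of_nonneg_left (pow_le_pow_right₀ hbZ hdav) (by positivity)
      _ = T ^ D * ((b : ℤ) ^ (∏ i, p i ^ κ i - ∏ i, p i ^ l i).natDegree *
            ∏ i, (b : ℤ) ^ (p i).natDegree) := by
          rw [pow_add, Finset.prod_pow_eq_pow_sum]
      _ ≤ T ^ D * (((S : ℤ) ^ 2 * |PZ - QZ|) * ∏ i, ((S : ℤ) ^ 2 * |a i|)) := by
          refine mul_le_mul_of_nonneg_left ?_ (by positivity)
          refine mul_le_mul hbig ?_ (Finset.prod_nonneg fun i _ => by positivity) (by positivity)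
          exact Finset.prod_le_prod (fun i _ => by positivity) fun i _ => (hlin i).2
      _ = (const r B D k : ℤ) * (|PZ - QZ| * ∏ i, |a i|) := by
          rw [Finset.prod_mul_distrib, Finset.prod_const, Finset.card_univ, Fintype.card_fin,
            hcst]
          ring
  -- conclusion
  show 1 / ((const r B D k : ℚ) * ∏ i, |(a i : ℚ)|) ≤ |∏ i, (a i : ℚ) ^ (β i) - 1|
  rw [hΛeq]
  have h1 : (PZ : ℚ) / QZ - 1 = ((PZ - QZ : ℤ) : ℚ) / QZ := by
    push_cast
    field_simp
  rw [h1, abs_div]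
  have hQpos : (0 : ℚ) < |(QZ : ℚ)| := abs_pos.2 hQZQ
  have hprodpos : (0 : ℚ) < ∏ i, |(a i : ℚ)| := Finset.prod_pos fun i _ => abs_pos.2 (haQ i)
  have hconst : (0 : ℚ) < (const r B D k : ℚ) := by
    have h2 : 0 < const r B D k := by
      unfold const
      have h3 : 0 < 4 * (r * B) ^ D := by omega
      refine Nat.mul_pos (Nat.pow_pos (Nat.mul_pos hrB (Nat.pow_pos h3))) (Nat.pow_pos h3)
    exact_mod_cast h2
  rw [div_le_div_iff₀ (mul_pos hconst hprodpos) hQpos, one_mul]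
  have h2 : ((|QZ| : ℤ) : ℚ) ≤ (((const r B D k : ℤ) * (|PZ - QZ| * ∏ i, |a i|) : ℤ) : ℚ) := by
    exact_mod_cast hmain
  push_cast at h2 ⊢
  linarith

end Pool.Agent.Results.MP_4eb8d9_nt.SparseProducts
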